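import Mathlib
import Pool.Agent.Lib.MP_c82530_nt.AB.Stm
import Pool.Agent.Lib.MP_c82530_nt.Bridge

set_option autoImplicit false

namespace Pool.Agent.Lib.MP_c82530_nt.AC

open Set Pool.Agent.Lib.MP_c82530_nt Pool.Agent.Lib.MP_c82530_nt.AA
  Pool.Agent.Lib.MP_c82530_nt.AB Module

/-- the exponentials of the spaces between `V` and `X` are free over `L` -/
def FreeR (L : Set ℂ) (V X : Submodule ℚ ℂ) : Prop :=
  ∀ H, V ≤ H → H ≤ X → ∀ b ∈ X, b ∉ H → Complex.exp b ∉ AM.closure (expSet H ∪ L)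

/-- the same for all spaces `X ⊇ V` of dimension at most `m` -/
def FreeUpR (L : Set ℂ) (V : Submodule ℚ ℂ) (m : ℕ) : Prop :=
  ∀ X, Good X → V ≤ X → finrank ℚ X ≤ m → FreeR L V X

/-- piece INF: as AB.S_inf (AB/P_inf.lean) for spaces containing `V` -/
def S_inf : Prop := ∀ (L : Set ℂ) (V X : Submodule ℚ ℂ), Good X → FreeR L V X →
  ∀ W1, V ≤ W1 → W1 ≤ X → ∀ W2, V ≤ W2 → W2 ≤ X → ∀ y, InL L W1 y → InL L W2 y →
    InL L (W1 ⊓ W2) y

/-- piece RAL: as AB.S_ral (AB/P_ral.lean) for spaces containing `V` -/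
def S_ral : Prop := ∀ (L : Set ℂ) (V X : Submodule ℚ ℂ), Good X → FreeR L V X →
  ∀ A, V ≤ A → A ≤ X → ∀ B, V ≤ B → B ≤ X → ∀ T, V ≤ T → T ≤ X → A ⊓ B ≤ T →
    ∀ y y' : ℂ, InL L A y → InL L B y' → InL L T (y - y') → InL L T y

/-- piece SNOC: relative algebraic independence and one more number -/
def S_snoc : Prop := ∀ (s : Set ℂ) (r : ℕ) (x : Fin r → ℂ) (w : ℂ),
  (AlgebraicIndependent (KL s) (Fin.snoc x w : Fin (r + 1) → ℂ) ↔
    AlgebraicIndependent (KL s) x ∧ w ∉ AM.closure (s ∪ range x))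

/-- piece FREE: if `V` is the core of `L₀` and `x` is algebraically independent over
`ℚ(exp S, L₀)` for all `S` of dimension at most `m`, then exponentials are free over `L₀ ∪ x` up to
dimension `m`, relative to `V`.
Proof: let `V ≤ H ≤ X`, `b ∈ X`, `b ∉ H` and `exp b ∈ cl(exp H ∪ L₀ ∪ x)`. As `x` is independent
over `cl(exp X ∪ L₀) ∋ exp b`, the exchange property gives `exp b ∈ cl(exp H ∪ L₀)`. But the
defects of `H` and `H + ℚ b` over `L₀` are both `dl L₀ V` (see exists_core in Defect.lean), so the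
rank of `exp (H + ℚ b) ∪ L₀` is one more than that of `exp H ∪ L₀`. -/
def S_free : Prop := ∀ (L₀ : Set ℂ), L₀.Finite → ∀ V : Submodule ℚ ℂ, Good V →
  (∀ W : Submodule ℚ ℂ, FiniteDimensional ℚ W → (∀ w ∈ W, IsAlgebraic ℚ w) → V ≤ W →
    dl L₀ W = dl L₀ V) →
  ∀ (m r : ℕ) (x : Fin r → ℂ),
    (∀ S, Good S → finrank ℚ S ≤ m → AlgebraicIndependent (KL (expSet S ∪ L₀)) x) →
    FreeUpR (L₀ ∪ range x) V m

/-- piece MON: algebraic independence over a smaller field.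
Hint: indep_KL_iff in Bridge.lean with a basis `J''` of `L''`, extended to a basis `J'` of
`cl L'`, and restriction of scalars; or use ranks. -/
def S_mon : Prop := ∀ (L' L'' : Set ℂ), L'' ⊆ AM.closure L' → ∀ (n : ℕ) (x : Fin n → ℂ),
  AlgebraicIndependent (KL L') x → AlgebraicIndependent (KL L'') x

/-- piece CONG: the field `KL` depends only on the closure -/
def S_cong : Prop := ∀ (L' L'' : Set ℂ), AM.closure L' = AM.closure L'' →
  ∀ (n : ℕ) (x : Fin n → ℂ), AlgebraicIndependent (KL L') x ↔ AlgebraicIndependent (KL L'') x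

/-- piece EXS: shrinking the exceptional weight. Take a finite set `P₀` of primes outside `A` whose
weight is almost maximal and add it to `A`. -/
def S_exs : Prop := EXC → ∀ ε : ℝ, 0 < ε → ∃ B : Set ℕ, (∀ p ∈ B, p.Prime) ∧
  (∀ P : Finset ℕ, (∀ p ∈ P, p.Prime ∧ p ∉ B) → ∑ p ∈ P, (p : ℝ)⁻¹ ≤ ε) ∧
    AM.eRk (lg '' B) ≠ ⊤

/-- piece LGB: the logarithm of an integer composed of primes in `B` -/
def S_lgb : Prop := ∀ (B : Set ℕ) (b : ℕ), b ≠ 0 → (∀ p : ℕ, p.Prime → p ∣ b → p ∈ B) →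
  lg b ∈ AM.closure (lg '' B)

/-- piece DIM: too many numbers of a set of finite rank are dependent -/
def S_dim : Prop := ∀ (L : Set ℂ) (t r : ℕ), AM.eRk L ≤ t → t < r → ∀ x : Fin r → ℂ,
  (∀ i, x i ∈ AM.closure L) → ¬ AlgebraicIndependent (integralClosure ℚ ℂ) x

/-- piece FIN: a set of finite rank and a finitely generated field are in the closure of a finite
set -/
def S_fin : Prop := ∀ (A : Set ℂ) (E : IntermediateField ℚ ℂ), AM.eRk A ≠ ⊤ → E.FG →
  ∃ L : Set ℂ, L.Finite ∧ A ⊆ AM.closure L ∧ (E : Set ℂ) ⊆ AM.closure L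

/-- piece FGE: a finitely generated field is the closure of a finite set, up to closure -/
def S_fge : Prop := ∀ (E : IntermediateField ℚ ℂ), E.FG →
  ∃ L : Set ℂ, L.Finite ∧ AM.closure (E : Set ℂ) = AM.closure L

/-- piece WMO: weights: monotone, at least `(log N)^r` for all tuples, additive -/
def S_wmo : Prop := ∀ (r : ℕ) (N : ℕ),
  (∀ D D' : Set (Fin r → ℕ), (∀ b ∈ D, (∀ i, b i ≠ 0) → b ∈ D') → Wt D N ≤ Wt D' N) ∧
  (Real.log N) ^ r ≤ Wt (univ : Set (Fin r → ℕ)) N ∧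
  (∀ D : Set (Fin r → ℕ), Wt D N + Wt Dᶜ N = Wt (univ : Set (Fin r → ℕ)) N)

/-- piece LOG: `log N ≤ 1 + 1/2 + ... + 1/N` -/
def S_log : Prop := ∀ N : ℕ, Real.log N ≤ ∑ b ∈ Finset.Icc 1 N, (b : ℝ)⁻¹

/-- piece AIX: `exp α` and `x` together, from `x` over `ℚ(exp α)` -/
def S_aix : Prop := ∀ (n r : ℕ) (α : Fin n → ℂ) (x : Fin r → ℂ), (∀ i, IsAlgebraic ℚ (α i)) →
  LinearIndependent ℚ α →
  (AIx α x ↔ AlgebraicIndependent (KL (range fun i => Complex.exp (α i))) x)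

/-- piece SWAP: symmetry of relative algebraic independence -/
def S_swap : Prop := ∀ (L : Set ℂ) (n r : ℕ) (y : Fin n → ℂ) (x : Fin r → ℂ),
  AlgebraicIndependent (KL L) y → AlgebraicIndependent (KL (L ∪ range y)) x →
    AlgebraicIndependent (KL (L ∪ range x)) y

end Pool.Agent.Lib.MP_c82530_nt.AC
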