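import Mathlib
import Pool.Agent.Lib.MP_c82530_nt.AC.Stm

set_option autoImplicit false

namespace Pool.Agent.Lib.MP_c82530_nt.AC

open Set Pool.Agent.Lib.MP_c82530_nt Pool.Agent.Lib.MP_c82530_nt.AA
  Pool.Agent.Lib.MP_c82530_nt.AB Module

open scoped IntermediateField.algebraAdjoinAdjoin in
lemma isAlg_adjoin_iff {s : Set ℂ} {z : ℂ} :
    IsAlgebraic (IntermediateField.adjoin ℚ s) z ↔ z ∈ AM.closure s := by
  rw [mem_cl, IntermediateField.isAlgebraic_adjoin_iff]

/-- the exceptional case in plain terms -/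
theorem exc_iff : EXC ↔ ∃ (A : Set ℕ) (T : Set ℂ), T.Finite ∧
    Summable ({p : ℕ | p.Prime ∧ p ∉ A}.indicator (fun p : ℕ => (p : ℝ)⁻¹)) ∧
    ∀ p ∈ A, IsAlgebraic (IntermediateField.adjoin ℚ T) (lg p) := by
  classical
  constructor
  · rintro ⟨t, C, A, hA1, hA2, hA3⟩
    obtain ⟨I, hI⟩ := AM.exists_isBasis (lg '' A) (subset_univ _)
    refine ⟨A, I, ?_, ?_, ?_⟩
    · rw [← encard_ne_top_iff, hI.encard_eq_eRk]
      exact ne_top_of_le_ne_top (ENat.coe_ne_top t) hA3
    · apply summable_of_sum_le (c := C)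
      · intro n
        apply Set.indicator_nonneg
        intro n _; positivity
      · intro u
        have h1 : ∑ x ∈ u, ({p : ℕ | p.Prime ∧ p ∉ A}.indicator (fun p : ℕ => (p : ℝ)⁻¹)) x =
            ∑ x ∈ u.filter (fun p => p.Prime ∧ p ∉ A), (x : ℝ)⁻¹ := by
          rw [Finset.sum_filter]
          apply Finset.sum_congr rfl
          intro x _
          rw [Set.indicator_apply]
          rfl
        rw [h1]
        apply hA2
        intro p hp
        exact (Finset.mem_filter.mp hp).2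
    · intro p hp
      rw [isAlg_adjoin_iff, hI.closure_eq_closure]
      exact AM.mem_closure_of_mem' ⟨p, hp, rfl⟩ (mem_univ _)
  · rintro ⟨A, T, hT, hS, hA⟩
    refine ⟨T.ncard, ∑' p, ({p : ℕ | p.Prime ∧ p ∉ A}.indicator (fun p : ℕ => (p : ℝ)⁻¹)) p,
      A ∩ {p | p.Prime}, fun p hp => hp.2, ?_, ?_⟩
    · intro P hP
      have h1 : ∑ p ∈ P, (p : ℝ)⁻¹ =
          ∑ p ∈ P, ({p : ℕ | p.Prime ∧ p ∉ A}.indicator (fun p : ℕ => (p : ℝ)⁻¹)) p := by
        apply Finset.sum_congr rfl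
        intro p hp
        rw [Set.indicator_of_mem]
        exact ⟨(hP p hp).1, fun h => (hP p hp).2 ⟨h, (hP p hp).1⟩⟩
      rw [h1]
      apply hS.sum_le_tsum
      intro p _
      apply Set.indicator_nonneg
      intro n _; positivity
    · have h1 : lg '' (A ∩ {p | p.Prime}) ⊆ AM.closure T := by
        rintro _ ⟨p, hp, rfl⟩
        exact isAlg_adjoin_iff.mp (hA p hp.1)
      refine (AM.eRk_mono h1).trans ?_
      rw [AM.eRk_closure_eq]
      refine (AM.eRk_le_encard T).trans ?_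
      rw [← hT.cast_ncard_eq]

end Pool.Agent.Lib.MP_c82530_nt.AC
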