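import Mathlib
import Pool.Agent.Lib.MP_c82530_nt.AC.Step

set_option autoImplicit false

namespace Pool.Agent.Lib.MP_c82530_nt.AC

open Set Pool.Agent.Lib.MP_c82530_nt Pool.Agent.Lib.MP_c82530_nt.AA
  Module Filter Topology
open Pool.Agent.Lib.MP_c82530_nt.AB hiding S_inf S_ral S_snoc S_free

lemma log_nonneg' (N : ℕ) : 0 ≤ Real.log N := Real.log_natCast_nonneg N

lemma cl_union_congr {A B C D : Set ℂ} (h1 : AM.closure A = AM.closure B)
    (h2 : AM.closure C = AM.closure D) : AM.closure (A ∪ C) = AM.closure (B ∪ D) := by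
  rw [← AM.closure_union_closure_left_eq, h1, AM.closure_union_closure_left_eq,
    ← AM.closure_union_closure_right_eq, h2, AM.closure_union_closure_right_eq]

/-- weights in the exceptional case -/
lemma wt_B (hpro : S_pro) (hfra : S_fra) (hlog : S_log) {B : Set ℕ} {ε : ℝ} (hε : 0 ≤ ε)
    (hε1 : ε ≤ 1)
    (hB : ∀ P : Finset ℕ, (∀ p ∈ P, p.Prime ∧ p ∉ B) → ∑ p ∈ P, (p : ℝ)⁻¹ ≤ ε) (r N : ℕ) :
    (1 - ε) ^ r * (Real.log N) ^ r ≤
      Wt {b : Fin r → ℕ | ∀ i, b i ∈ {b : ℕ | ∀ p : ℕ, p.Prime → p ∣ b → p ∈ B}} N := by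
  have h1 := hfra B ε hB N
  have h2 := hpro r _ ε N hε hε1 h1
  refine le_trans ?_ h2
  apply mul_le_mul_of_nonneg_left _ (by
    have : 0 ≤ 1 - ε := by linarith
    positivity)
  exact pow_le_pow_left₀ (log_nonneg' N) (hlog N) r

/-- **main theorem for tuples** -/
theorem main3 (hinf : S_inf) (hral : S_ral) (hlo : S_lo) (hzs : S_zs) (hcs : S_cs) (hsp : S_sp)
    (hmt : S_mt2) (hcpt : S_cpt) (hsnoc : S_snoc) (hfree : S_free) (hind : S_ind)
    (hmon : S_mon) (hcong : S_cong) (hexs : S_exs) (hlgb : S_lgb) (hdim : S_dim) (hfin : S_fin)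
    (hfge : S_fge) (hwmo : S_wmo) (hlog : S_log) (haix : S_aix) (hsub : S_sub)
    (hpro : S_pro) (hfra : S_fra) :
    (¬ EXC → ∀ E : IntermediateField ℚ ℂ, E.FG → ∀ n r : ℕ,
      LNr {b : Fin r → ℕ | ∃ α : Fin n → ℂ, (∀ i, IsAlgebraic ℚ (α i)) ∧
        ¬ AlgebraicIndependent (KL ((E : Set ℂ) ∪ range fun i => Complex.exp (α i)))
          (fun j => lg (b j))}) ∧
    (¬ EXC → ∀ n r : ℕ, LNr {b : Fin r → ℕ | ∃ α : Fin n → ℂ, (∀ i, IsAlgebraic ℚ (α i)) ∧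
      LinearIndependent ℚ α ∧ ¬ AIx α (fun j => lg (b j))}) ∧
    (EXC → (∃ (r : ℕ) (δ : ℝ), 0 < δ ∧ ∀ N : ℕ, δ * (Real.log N) ^ r ≤
        Wt {b : Fin r → ℕ | ¬ AlgebraicIndependent (integralClosure ℚ ℂ) (fun j => lg (b j))} N) ∧
      ∀ E : IntermediateField ℚ ℂ, E.FG → ∀ ε : ℝ, 0 < ε → ε < 1 →
      ∃ V : Submodule ℚ ℂ, FiniteDimensional ℚ V ∧ (∀ v ∈ V, IsAlgebraic ℚ v) ∧
        ∀ r N : ℕ, (1 - ε) ^ r * (Real.log N) ^ r ≤
          Wt {b : Fin r → ℕ | ∀ (n : ℕ) (α : Fin n → ℂ), (∀ i, IsAlgebraic ℚ (α i)) →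
            LinearIndependent ℚ α → Disjoint (Submodule.span ℚ (range α)) V →
            AlgebraicIndependent (KL ((E : Set ℂ) ∪ range fun j => lg (b j)))
              (fun i => Complex.exp (α i))} N) := by
  have h2 : ¬ EXC → ∀ E : IntermediateField ℚ ℂ, E.FG → ∀ n r : ℕ,
      LNr {b : Fin r → ℕ | ∃ α : Fin n → ℂ, (∀ i, IsAlgebraic ℚ (α i)) ∧
        ¬ AlgebraicIndependent (KL ((E : Set ℂ) ∪ range fun i => Complex.exp (α i)))
          (fun j => lg (b j))} := by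
    intro hno E hE n r
    obtain ⟨L₀, hL₀, hcl⟩ := hfge E hE
    obtain ⟨V, hVfd, hV, hcore⟩ := exists_core hL₀
    have ht := tuplesC hinf hral hlo hzs hcs hsp hmt hcpt hsnoc hfree hind hno hL₀
      (V := V) ⟨hVfd, hV⟩ (fun W hW1 hW2 h => (hcore W hW1 hW2).2.2.mpr h) r n
    apply hsub r _ _ _ ht
    rintro b ⟨α, hα, hAI⟩ _
    refine ⟨Submodule.span ℚ (range α), good_span' hα, ?_, fun h => hAI ?_⟩
    · exact (finrank_range_le_card α).trans (by rw [Fintype.card_fin])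
    · refine (hcong _ _ ?_ r _).mpr h
      rw [union_comm, ← closure_exp_union]
      exact cl_union_congr rfl hcl
  refine ⟨h2, ?_, fun hex => ⟨?_, ?_⟩⟩
  · intro hno n r
    have h3 := h2 hno ⊥ IntermediateField.fg_bot n r
    apply hsub r _ _ _ h3
    rintro b ⟨α, hα, hlin, hAI⟩ _
    refine ⟨α, hα, fun h => hAI ?_⟩
    rw [haix n r α _ hα hlin]
    refine hmon _ _ ?_ r _ h
    exact subset_union_right.trans (AM.subset_closure _)
  · obtain ⟨B, hB1, hB2, hB3⟩ := hexs hex (1 / 2) (by norm_num)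
    refine ⟨(AM.eRk (lg '' B)).toNat + 1, (1 - 1 / 2) ^ ((AM.eRk (lg '' B)).toNat + 1),
      by positivity, fun N => ?_⟩
    refine (wt_B hpro hfra hlog (by norm_num) (by norm_num) hB2 _ N).trans ((hwmo _ N).1 _ _ ?_)
    intro b hb hb0
    apply hdim (lg '' B) (AM.eRk (lg '' B)).toNat _ (ENat.coe_toNat hB3).ge (Nat.lt_succ_self _)
    intro j
    exact hlgb B (b j) (hb0 j) (hb j)
  · intro E hE ε hε hε1
    obtain ⟨B, hB1, hB2, hB3⟩ := hexs hex ε hε
    obtain ⟨L, hL, hBL, hEL⟩ := hfin _ E hB3 hE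
    obtain ⟨V, hVfd, hV, hcore⟩ := exists_core hL
    refine ⟨V, hVfd, hV, fun r N => ?_⟩
    refine (wt_B hpro hfra hlog hε.le hε1.le hB2 r N).trans ((hwmo r N).1 _ _ ?_)
    intro b hb hb0 n α hα hlin hdis
    have hfd : FiniteDimensional ℚ (Submodule.span ℚ (range α)) :=
      FiniteDimensional.span_of_finite ℚ (finite_range α)
    have h3 : dl L (Submodule.span ℚ (range α)) = 0 := by
      rw [(hcore _ hfd (span_alg hα)).1, hdis.eq_bot, dl_bot hL]
    have h4 := (dl_eq_zero_iff hL hα hlin).mp h3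
    refine hmon L _ ?_ n _ h4
    apply union_subset hEL
    rintro _ ⟨j, rfl⟩
    have h5 := hlgb B (b j) (hb0 j) (hb j)
    have h6 := AM.closure_subset_closure hBL h5
    rwa [Matroid.closure_closure] at h6

end Pool.Agent.Lib.MP_c82530_nt.AC
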