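import Mathlib
import Pool.Agent.Lib.MP_c82530_nt.AC.Stm

set_option autoImplicit false

namespace Pool.Agent.Lib.MP_c82530_nt.AC

open Set Pool.Agent.Lib.MP_c82530_nt Pool.Agent.Lib.MP_c82530_nt.AA
  Pool.Agent.Lib.MP_c82530_nt.AB Module

theorem p_aix : S_aix := by
  intro n r α x hα hlin
  have h1 : AIx α x ↔ AlgebraicIndependent ℚ
      (Sum.elim (fun i : Fin n => Complex.exp (α i)) x) :=
    ⟨fun h => h.restrictScalars (algebraMap ℚ (integralClosure ℚ ℂ)).injective,
      fun h => h.integralClosure⟩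
  have h2 : (Sum.elim (fun i : Fin n => Complex.exp (α i)) x) ∘ (Equiv.sumComm (Fin r) (Fin n)) =
      Sum.elim x (fun i : Fin n => Complex.exp (α i)) := by
    funext o
    rcases o with i | j <;> rfl
  rw [h1, ← algebraicIndependent_equiv' (Equiv.sumComm (Fin r) (Fin n)) h2,
    AlgebraicIndependent.sumElim_iff,
    indep_KL_iff (L := range fun i => Complex.exp (α i)) (J := range fun i => Complex.exp (α i))
      rfl]
  exact ⟨fun h => h.2, fun h => ⟨lw α hα hlin, h⟩⟩

end Pool.Agent.Lib.MP_c82530_nt.AC
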