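import Pool.Agent.Lib.MP_c82530_nt.AC.Stm

set_option autoImplicit false

/-!
# Piece EXS: shrinking the exceptional weight
-/

namespace Pool.Agent.Lib.MP_c82530_nt.AC

open Set Pool.Agent.Lib.MP_c82530_nt Pool.Agent.Lib.MP_c82530_nt.AA
  Pool.Agent.Lib.MP_c82530_nt.AB Module

theorem p_exs : S_exs := by
  classical
  rintro ⟨t, C, A, hA, hC, hr⟩ ε hε
  set Q : Set ℝ := {x | ∃ P : Finset ℕ, (∀ p ∈ P, p.Prime ∧ p ∉ A) ∧ x = ∑ p ∈ P, (p : ℝ)⁻¹}
    with hQ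
  have hne : Q.Nonempty := ⟨0, ∅, by simp, by simp⟩
  have hbd : BddAbove Q := ⟨C, by
    rintro x ⟨P, hP, rfl⟩
    exact hC P hP⟩
  obtain ⟨x, ⟨P₀, hP₀, rfl⟩, hx⟩ := exists_lt_of_lt_csSup hne (show sSup Q - ε < sSup Q by linarith)
  refine ⟨A ∪ (P₀ : Set ℕ), ?_, ?_, ?_⟩
  · rintro p (hp | hp)
    · exact hA p hp
    · exact (hP₀ p hp).1
  · intro P hP
    have hdis : Disjoint P P₀ := by
      rw [Finset.disjoint_left]
      intro p hp hp0
      exact (hP p hp).2 (Or.inr hp0)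
    have h1 : ∑ p ∈ P ∪ P₀, (p : ℝ)⁻¹ ≤ sSup Q := by
      apply le_csSup hbd
      refine ⟨P ∪ P₀, ?_, rfl⟩
      intro p hp
      rcases Finset.mem_union.1 hp with h | h
      · exact ⟨(hP p h).1, fun h2 => (hP p h).2 (Or.inl h2)⟩
      · exact hP₀ p h
    rw [Finset.sum_union hdis] at h1
    linarith
  · rw [Set.image_union]
    have h1 : AM.eRk (lg '' (P₀ : Set ℕ)) ≤ (P₀.card : ℕ∞) := by
      refine (AM.eRk_le_encard _).trans ?_
      refine (Set.encard_image_le _ _).trans ?_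
      rw [Set.encard_coe_eq_coe_finsetCard]
    have h2 : AM.eRk (lg '' A ∪ lg '' (P₀ : Set ℕ)) ≤ ((t + P₀.card : ℕ) : ℕ∞) := by
      refine (AM.eRk_union_le_eRk_add_eRk _ _).trans ?_
      push_cast
      exact add_le_add hr h1
    intro h3
    rw [h3] at h2
    exact absurd h2 (not_le.2 (ENat.coe_lt_top _))

end Pool.Agent.Lib.MP_c82530_nt.AC
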