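import Mathlib
import Pool.Agent.Lib.MP_c82530_nt.AC.Stm

set_option autoImplicit false

namespace Pool.Agent.Lib.MP_c82530_nt.AC

open Set Pool.Agent.Lib.MP_c82530_nt Pool.Agent.Lib.MP_c82530_nt.AA
  Pool.Agent.Lib.MP_c82530_nt.AB Module

private lemma fin_sub (s : Set ℂ) :
    ((IntermediateField.adjoin ℚ s : IntermediateField ℚ ℂ) : Set ℂ) ⊆ AM.closure s := by
  intro z hz
  rw [← mem_KL]
  exact (KL s).algebraMap_mem ⟨z, hz⟩

theorem p_fge : S_fge := by
  rintro E ⟨t, rfl⟩
  refine ⟨t, t.finite_toSet, ?_⟩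
  refine Set.Subset.antisymm ?_ ?_
  · have h := AM.closure_subset_closure (fin_sub (t : Set ℂ))
    rwa [Matroid.closure_closure] at h
  · exact AM.closure_subset_closure (IntermediateField.subset_adjoin ℚ (t : Set ℂ))

theorem p_fin : S_fin := by
  rintro A E hA ⟨t, rfl⟩
  obtain ⟨I, hI⟩ := AM.exists_isBasis A (subset_univ A)
  have hfin : I.Finite := by
    rw [← encard_ne_top_iff, hI.encard_eq_eRk]
    exact hA
  refine ⟨I ∪ (t : Set ℂ), hfin.union t.finite_toSet, ?_, ?_⟩
  · refine (AM.subset_closure A (subset_univ A)).trans ?_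
    rw [← hI.closure_eq_closure]
    exact AM.closure_subset_closure subset_union_left
  · exact (fin_sub (t : Set ℂ)).trans (AM.closure_subset_closure subset_union_right)

end Pool.Agent.Lib.MP_c82530_nt.AC
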