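import Pool.Agent.Lib.MP_c82530_nt.AC.Stm

set_option autoImplicit false

/-!
Piece FREE: freeness of the exponentials relative to the core.
-/

namespace Pool.Agent.Lib.MP_c82530_nt.AC

open Set Pool.Agent.Lib.MP_c82530_nt Pool.Agent.Lib.MP_c82530_nt.AA
  Pool.Agent.Lib.MP_c82530_nt.AB Module

/-- relative independence in terms of the matroid -/
lemma free_notMem {B : Set ℂ} {r : ℕ} {x : Fin r → ℂ} (hx : AlgebraicIndependent (KL B) x)
    {s : Set (Fin r)} {i : Fin r} (hi : i ∉ s) : x i ∉ AM.closure (B ∪ x '' s) := by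
  intro h
  have h1 : Transcendental (Algebra.adjoin (KL B) (x '' s)) (x i) := hx.transcendental_adjoin hi
  apply h1
  rw [mem_cl] at h
  have hle : ∀ z ∈ Algebra.adjoin ℚ (B ∪ x '' s), z ∈ Algebra.adjoin (KL B) (x '' s) := by
    intro z hz
    induction hz using Algebra.adjoin_induction with
    | mem y hy =>
      rcases hy with hy | hy
      · have hyK : y ∈ KL B := mem_KL.mpr (AM.mem_closure_of_mem' hy (mem_univ _))
        exact (Algebra.adjoin (KL B) (x '' s)).algebraMap_mem (⟨y, hyK⟩ : KL B)
      · exact Algebra.subset_adjoin hy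
    | algebraMap q =>
      have hqK : algebraMap ℚ ℂ q ∈ KL B := by
        rw [mem_KL]
        exact alg_mem_cl _ (isAlgebraic_algebraMap q)
      exact (Algebra.adjoin (KL B) (x '' s)).algebraMap_mem (⟨_, hqK⟩ : KL B)
    | add y z _ _ hy hz => exact add_mem hy hz
    | mul y z _ _ hy hz => exact mul_mem hy hz
  let f : Algebra.adjoin ℚ (B ∪ x '' s) →+* Algebra.adjoin (KL B) (x '' s) :=
    { toFun := fun z => ⟨z, hle z z.2⟩
      map_one' := rfl
      map_mul' := fun _ _ => rfl
      map_zero' := rfl
      map_add' := fun _ _ => rfl }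
  refine IsAlgebraic.ringHom_of_comp_eq (R := Algebra.adjoin ℚ (B ∪ x '' s))
    (S := Algebra.adjoin (KL B) (x '' s)) (A := ℂ) (B := ℂ) f (RingHom.id ℂ) h ?_ ?_
  · intro a b hab
    have := congrArg Subtype.val hab
    exact Subtype.ext this
  · ext a; rfl

theorem p_free : S_free := by
  classical
  intro L₀ hL₀ V hV hcore m r x hx X hX hVX hm H hVH hHX b hb hbH hcon
  have fX := hX.1
  have gH : Good H := hX.of_le hHX
  have fH := gH.1
  have hxX := hx X hX hm
  -- remove `x`
  have key : ∀ s : Finset (Fin r),
      Complex.exp b ∈ AM.closure ((expSet H ∪ L₀) ∪ x '' (s : Set (Fin r))) →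
        Complex.exp b ∈ AM.closure (expSet H ∪ L₀) := by
    intro s
    induction s using Finset.induction_on with
    | empty =>
      intro h
      rwa [Finset.coe_empty, image_empty, union_empty] at h
    | insert i s hi ih =>
      intro h
      apply ih
      by_contra hne
      have e : (expSet H ∪ L₀) ∪ x '' ((insert i s : Finset (Fin r)) : Set (Fin r)) =
          insert (x i) ((expSet H ∪ L₀) ∪ x '' (s : Set (Fin r))) := by
        rw [Finset.coe_insert, image_insert_eq, union_insert]
      rw [e] at h
      have h1 := (Matroid.closure_exchange ⟨h, hne⟩).1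
      have h2 : insert (Complex.exp b) ((expSet H ∪ L₀) ∪ x '' (s : Set (Fin r))) ⊆
          (expSet X ∪ L₀) ∪ x '' (s : Set (Fin r)) := by
        rintro z (rfl | (⟨w, hw, rfl⟩ | hz) | hz)
        · exact Or.inl (Or.inl ⟨b, hb, rfl⟩)
        · exact Or.inl (Or.inl ⟨w, hHX hw, rfl⟩)
        · exact Or.inl (Or.inr hz)
        · exact Or.inr hz
      have hi' : i ∉ (s : Set (Fin r)) := by simpa using hi
      exact free_notMem hxX hi' (AM.closure_subset_closure h2 h1)
  have hcon' : Complex.exp b ∈ AM.closure (expSet H ∪ L₀) := by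
    apply key Finset.univ
    rw [Finset.coe_univ, image_univ, union_assoc]
    exact hcon
  -- the rank does not grow
  set W : Submodule ℚ ℂ := H ⊔ Submodule.span ℚ {b} with hW
  have hWX : W ≤ X := sup_le hHX ((Submodule.span_singleton_le_iff_mem _ _).mpr hb)
  have gW : Good W := hX.of_le hWX
  have fW := gW.1
  have hHW : H ≤ W := le_sup_left
  have hcl : AM.closure (expSet W ∪ L₀) = AM.closure (expSet H ∪ L₀) := by
    apply Subset.antisymm
    · have h1 : expSet W ∪ L₀ ⊆ AM.closure (expSet H ∪ L₀) := by
        rintro z (⟨w, hw, rfl⟩ | hz)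
        · obtain ⟨h, hh, y, hy, rfl⟩ := Submodule.mem_sup.mp (show w ∈ W from hw)
          obtain ⟨q, rfl⟩ := Submodule.mem_span_singleton.mp hy
          rw [Complex.exp_add]
          apply mul_mem_cl
          · exact AM.mem_closure_of_mem' (Or.inl ⟨h, hh, rfl⟩) (mem_univ _)
          · have h2 := AM.closure_subset_closure (singleton_subset_iff.mpr hcon')
              (exp_smul_mem_cl q b)
            rwa [Matroid.closure_closure] at h2
        · exact AM.mem_closure_of_mem' (Or.inr hz) (mem_univ _)
      have h3 := AM.closure_subset_closure h1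
      rwa [Matroid.closure_closure] at h3
    · exact AM.closure_subset_closure (union_subset_union_left L₀ (expSet_mono hHW))
  have hfr : F L₀ W = F L₀ H := by
    unfold F fr
    rw [eRk_congr_closure hcl]
  have a1 := dl_add hL₀ gW.2
  have a2 := dl_add hL₀ gH.2
  have a3 := hcore W fW gW.2 (hVH.trans hHW)
  have a4 := hcore H fH gH.2 hVH
  have hlt : finrank ℚ H < finrank ℚ W := by
    apply Submodule.finrank_lt_finrank_of_lt
    refine lt_of_le_of_ne hHW ?_
    intro h
    apply hbH
    rw [h]
    exact le_sup_right (a := H) (Submodule.mem_span_singleton_self b)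
  omega

end Pool.Agent.Lib.MP_c82530_nt.AC
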