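import Pool.Agent.Lib.MP_c82530_nt.AC.Stm
import Pool.Agent.Lib.MP_c82530_nt.AB.P_ral

set_option autoImplicit false

/-!
Pieces INF and RAL relative to a subspace `V`.
-/

namespace Pool.Agent.Lib.MP_c82530_nt.AC

open Set Pool.Agent.Lib.MP_c82530_nt Pool.Agent.Lib.MP_c82530_nt.AA
  Pool.Agent.Lib.MP_c82530_nt.AB Module

theorem p_inf : S_inf := by
  intro L V X hX hF
  have key : ∀ n : ℕ, ∀ W1, V ≤ W1 → W1 ≤ X → finrank ℚ W1 = n → ∀ W2, V ≤ W2 → W2 ≤ X → ∀ y,
      InL L W1 y → InL L W2 y → InL L (W1 ⊓ W2) y := by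
    intro n
    induction n using Nat.strong_induction_on with
    | _ n ih =>
    intro W1 hV1 h1 hn W2 hV2 h2 y hy1 hy2
    by_cases hle : W1 ≤ W2
    · rw [inf_eq_left.mpr hle]; exact hy1
    obtain ⟨b, hb1, hb2⟩ := SetLike.not_le_iff_exists.mp hle
    obtain ⟨H, hHX, hWH, hbH, hsup⟩ := inf_hyper hX h2 (h1 hb1) hb2
    have hstep : InL L (W1 ⊓ H) y := by
      by_contra hcon
      have h3 := inf_split hb1 (fun v hv => hsup v (h1 hv)) hy1
      have h4 := (Matroid.closure_exchange ⟨h3, hcon⟩).1
      apply hF H (hV2.trans hWH) hHX b (h1 hb1) hbH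
      have h5 : insert y (expSet (W1 ⊓ H) ∪ L) ⊆ AM.closure (expSet H ∪ L) := by
        rintro z (rfl | ⟨w, hw, rfl⟩ | hz)
        · exact inf_mono hWH hy2
        · exact AM.mem_closure_of_mem' (Or.inl ⟨w, hw.2, rfl⟩) (mem_univ _)
        · exact AM.mem_closure_of_mem' (Or.inr hz) (mem_univ _)
      have h6 := AM.closure_subset_closure h5 h4
      rwa [Matroid.closure_closure] at h6
    have hfd : FiniteDimensional ℚ W1 := (hX.of_le h1).1
    have hlt : finrank ℚ (W1 ⊓ H : Submodule ℚ ℂ) < n := by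
      rw [← hn]
      apply Submodule.finrank_lt_finrank_of_lt
      refine lt_of_le_of_ne inf_le_left ?_
      intro h
      apply hbH
      have h7 : b ∈ W1 ⊓ H := by rw [h]; exact hb1
      exact h7.2
    have h8 := ih _ hlt (W1 ⊓ H) (le_inf hV1 (hV2.trans hWH)) (inf_le_left.trans h1) rfl W2 hV2 h2
      y hstep hy2
    refine inf_mono ?_ h8
    exact le_inf (inf_le_left.trans inf_le_left) inf_le_right
  intro W1 hV1 h1 W2 hV2 h2 y hy1 hy2
  exact key _ W1 hV1 h1 rfl W2 hV2 h2 y hy1 hy2

/-- **Relative directness over `L`.** -/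
theorem infral_direct {ι : Type*} (L : Set ℂ) (V X : Submodule ℚ ℂ) (hX : Good X)
    (hFree : FreeR L V X)
    (E : Submodule ℚ ℂ) : ∀ (n : ℕ) (s : Finset ι), s.card = n →
    ∀ (N : ℕ) (W : ι → Submodule ℚ ℂ), (∑ i ∈ s, Module.finrank ℚ (W i) = N) →
    (∀ i ∈ s, V ≤ W i) →
    (∀ i ∈ s, W i ≤ X) →
    (∀ i ∈ s, E ≤ W i) →
    (∀ i ∈ s, ∀ j ∈ s, i ≠ j → W i ⊓ W j ≤ E) →
    ∀ y : ι → ℂ, (∀ i ∈ s, InL L (W i) (y i)) →
      InL L E (∑ i ∈ s, y i) → ∀ i ∈ s, InL L E (y i) := by
  classical
  intro n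
  induction n with
  | zero =>
    intro s hs N W _ _ _ _ _ y _ _ i hi
    rw [Finset.card_eq_zero] at hs
    rw [hs] at hi
    exact absurd hi (Finset.notMem_empty i)
  | succ n ihn =>
    intro s hs N
    induction N using Nat.strong_induction_on with
    | _ N ihN =>
    intro W hN hVW hWX hE hdis y hy hsum
    by_cases hall : ∀ i ∈ s, W i ≤ E
    · intro i hi
      exact inf_mono (hall i hi) (hy i hi)
    push Not at hall
    obtain ⟨j, hj, hWj⟩ := hall
    by_cases hsj : ∃ m ∈ s, m ≠ j
    swap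
    · push Not at hsj
      have hs1 : s = {j} := by
        ext x; simp only [Finset.mem_singleton]
        exact ⟨fun hx => hsj x hx, fun hx => hx ▸ hj⟩
      rw [hs1, Finset.sum_singleton] at hsum
      intro i hi
      rw [hsj i hi]; exact hsum
    obtain ⟨m, hm, hmj⟩ := hsj
    obtain ⟨b, hbW, hbE⟩ := SetLike.not_le_iff_exists.mp hWj
    have hbX : b ∈ X := hWX j hj hbW
    have hbm : b ∉ W m := by
      intro hb
      exact hbE (hdis m hm j hj hmj ⟨hb, hbW⟩)
    obtain ⟨H, hHX, hmH, hbH, hsup⟩ := inf_hyper hX (hWX m hm) hbX hbm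
    obtain ⟨F, σ, hF, hFs, hτF, hσ⟩ := ral_scaling
      (hFree H ((hVW m hm).trans hmH) hHX b hbX hbH)
    have hexp : ∀ h ∈ H, Complex.exp h ∈ F := fun h hh =>
      hFs _ (AM.mem_closure_of_mem' (Or.inl ⟨h, hh, rfl⟩) (mem_univ _))
    have hLF : ∀ l ∈ L, l ∈ F := fun l hl =>
      hFs _ (AM.mem_closure_of_mem' (Or.inr hl) (mem_univ _))
    have hσF : ∀ z ∈ F, σ z = z := fun z hz => σ.commutes (⟨z, hz⟩ : F)
    have hclF : ∀ (T : Submodule ℚ ℂ), T ≤ H → ∀ z, InL L T z → z ∈ F := by
      intro T hT z hz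
      exact hFs z (inf_mono hT hz)
    have hymF : y m ∈ F := hclF _ hmH _ (hy m hm)
    have hEH : E ≤ H := (hE m hm).trans hmH
    have hz : ∀ i ∈ s, InL L (W i) (σ (y i) - y i) := by
      intro i hi
      have hyi := hy i hi
      have h1 := map_mem_cl (σ.restrictScalars ℚ) hyi
      have h2 : σ (y i) ∈ AM.closure (expSet (W i) ∪ L) := by
        have h3 : (σ.restrictScalars ℚ) '' (expSet (W i) ∪ L) ⊆
            AM.closure (expSet (W i) ∪ L) := by
          rintro _ ⟨z, ⟨w, hw, rfl⟩ | hz, rfl⟩
          · obtain ⟨c, hc, hσc⟩ := sigma_exp σ hσ hexp (hsup _ (hWX i hi hw))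
            change σ (Complex.exp w) ∈ _
            rw [hσc]
            exact mul_mem_cl (alg_mem_cl _ hc)
              (AM.mem_closure_of_mem' (Or.inl ⟨w, hw, rfl⟩) (mem_univ _))
          · change σ z ∈ _
            rw [hσF z (hLF z hz)]
            exact AM.mem_closure_of_mem' (Or.inr hz) (mem_univ _)
        have h4 := AM.closure_subset_closure h3 h1
        rwa [Matroid.closure_closure] at h4
      exact sub_mem_cl h2 hyi
    have hsumz : ∑ i ∈ s.erase m, (σ (y i) - y i) = 0 := by
      rw [Finset.sum_sub_distrib, ← map_sum]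
      have h1 : ∑ i ∈ s.erase m, y i ∈ F := by
        have h2 : ∑ i ∈ s.erase m, y i = (∑ i ∈ s, y i) - y m := by
          rw [← Finset.add_sum_erase s _ hm]; ring
        rw [h2]
        exact sub_mem (hclF _ hEH _ hsum) hymF
      rw [hσF _ h1, sub_self]
    have hzE := ihn (s.erase m) (by rw [Finset.card_erase_of_mem hm, hs]; rfl) _ W rfl
      (fun i hi => hVW i (Finset.mem_of_mem_erase hi))
      (fun i hi => hWX i (Finset.mem_of_mem_erase hi))
      (fun i hi => hE i (Finset.mem_of_mem_erase hi))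
      (fun i hi i' hi' => hdis i (Finset.mem_of_mem_erase hi) i' (Finset.mem_of_mem_erase hi'))
      (fun i => σ (y i) - y i) (fun i hi => hz i (Finset.mem_of_mem_erase hi))
      (by rw [hsumz]; exact alg_mem_cl _ isAlgebraic_zero) j (Finset.mem_erase.mpr ⟨hmj.symm, hj⟩)
    -- `y j ∈ F`
    have hyjF : y j ∈ F := by
      apply hF
      have h1 : IsAlgebraic (Algebra.adjoin F {Complex.exp b}) (y j) := by
        apply isAlgebraic_adjoin_F' F _ (hy j hj)
        rintro z (⟨w, hw, rfl⟩ | hz)
        · obtain ⟨h, hh, x, hx, hx2⟩ := Submodule.mem_sup.mp (hsup w (hWX j hj hw))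
          obtain ⟨q, rfl⟩ := Submodule.mem_span_singleton.mp hx
          rw [← hx2, Complex.exp_add]
          apply mul_mem_cl
          · exact AM.mem_closure_of_mem' (Or.inl (hexp h hh)) (mem_univ _)
          · exact AM.closure_subset_closure subset_union_right (exp_smul_mem_cl q b)
        · exact AM.mem_closure_of_mem' (Or.inl (hLF z hz)) (mem_univ _)
      exact eigen σ (τ := Complex.exp b) (c := 2) (κ := (⟨_, hclF _ hEH _ hzE⟩ : F))
        (two_pow_inj F) (Complex.exp_ne_zero _) (by rw [hσ]; rfl) (by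
          change σ (y j) = y j + (σ (y j) - y j)
          ring) h1
    -- `y j` is in the closure of the smaller space `W j ⊓ H`
    have hyjH : InL L (W j ⊓ H) (y j) := by
      by_contra hcon
      have h1 := inf_split hbW (fun v hv => hsup v (hWX j hj hv)) (hy j hj)
      have h2 := (Matroid.closure_exchange ⟨h1, hcon⟩).1
      apply hτF
      apply hF
      apply isAlgebraic_of_mem_cl F _ h2
      rintro z (rfl | ⟨w, hw, rfl⟩ | hz)
      · exact hyjF
      · exact hexp _ hw.2
      · exact hLF z hz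
    -- apply the induction hypothesis
    set W' : ι → Submodule ℚ ℂ := fun i => if i = j then W j ⊓ H else W i with hW'
    have hW'le : ∀ i, W' i ≤ W i := by
      intro i
      rw [hW']
      by_cases h : i = j
      · simp only [h, if_true]; exact inf_le_left
      · simp only [h, if_false]; exact le_rfl
    have hlt : ∑ i ∈ s, Module.finrank ℚ (W' i) < N := by
      rw [← hN]
      apply Finset.sum_lt_sum
      · intro i hi
        have := (hX.of_le (hWX i hi)).1
        exact Submodule.finrank_mono (hW'le i)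
      · refine ⟨j, hj, ?_⟩
        have := (hX.of_le (hWX j hj)).1
        apply Submodule.finrank_lt_finrank_of_lt
        refine lt_of_le_of_ne (hW'le j) ?_
        intro h
        apply hbH
        have h1 : b ∈ W' j := by rw [h]; exact hbW
        have h2 : W' j = W j ⊓ H := by rw [hW']; simp
        rw [h2] at h1
        exact h1.2
    refine ihN _ hlt W' rfl ?_ ?_ ?_ ?_ y ?_ hsum
    · intro i hi
      by_cases h : i = j
      · have h2 : W' i = W j ⊓ H := by rw [hW']; simp [h]
        rw [h2]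
        exact le_inf (hVW j hj) ((hVW m hm).trans hmH)
      · have h2 : W' i = W i := by rw [hW']; simp [h]
        rw [h2]
        exact hVW i hi
    · intro i hi
      exact (hW'le i).trans (hWX i hi)
    · intro i hi
      by_cases h : i = j
      · have h2 : W' i = W j ⊓ H := by rw [hW']; simp [h]
        rw [h2]
        exact le_inf (hE j hj) hEH
      · have h2 : W' i = W i := by rw [hW']; simp [h]
        rw [h2]
        exact hE i hi
    · intro i hi i' hi' hne
      exact (inf_le_inf (hW'le i) (hW'le i')).trans (hdis i hi i' hi' hne)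
    · intro i hi
      by_cases h : i = j
      · have h2 : W' i = W j ⊓ H := by rw [hW']; simp [h]
        rw [h2, h]
        exact hyjH
      · have h2 : W' i = W i := by rw [hW']; simp [h]
        rw [h2]
        exact hy i hi

theorem p_ral : S_ral := by
  intro L V X hX hFree A hVA hA B hVB hB T hVT hT hABT y y' hy hy' hz
  set E : Submodule ℚ ℂ := (T ⊓ A) ⊔ (T ⊓ B) with hE
  have hET : E ≤ T := sup_le inf_le_left inf_le_left
  have hEX : E ≤ X := hET.trans hT
  have h1 := infral_direct (ι := Fin 3) L V X hX hFree E 3 Finset.univ (by simp) _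
    ![A ⊔ E, B ⊔ E, T] rfl ?_ ?_ ?_ ?_ ![y, -y', -(y - y')] ?_ ?_ 0 (Finset.mem_univ _)
  · exact inf_mono hET h1
  · intro i _
    fin_cases i
    · exact hVA.trans le_sup_left
    · exact hVB.trans le_sup_left
    · exact hVT
  · intro i _
    fin_cases i
    · exact sup_le hA hEX
    · exact sup_le hB hEX
    · exact hT
  · intro i _
    fin_cases i
    · exact le_sup_right
    · exact le_sup_right
    · exact hET
  · have key1 : (A ⊔ E) ⊓ (B ⊔ E) ≤ E := by
      rintro x ⟨hx1, hx2⟩
      obtain ⟨a, ha, e, he, hae⟩ := Submodule.mem_sup.mp hx1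
      obtain ⟨b, hb, e', he', hbe⟩ := Submodule.mem_sup.mp hx2
      have h3 : a - b ∈ E := by
        have : a - b = e' - e := by
          have h4 : a + e = b + e' := hae.trans hbe.symm
          linear_combination h4
        rw [this]; exact E.sub_mem he' he
      obtain ⟨u, hu, v, hv, huv⟩ := Submodule.mem_sup.mp h3
      have h5 : a - u = b + v := by linear_combination -huv
      have h6 : a - u ∈ A := A.sub_mem ha hu.2
      have h7 : a - u ∈ B := by rw [h5]; exact B.add_mem hb hv.2
      have h8 : a - u ∈ T := hABT ⟨h6, h7⟩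
      have h9 : a ∈ T := by
        have := T.add_mem h8 hu.1
        rwa [sub_add_cancel] at this
      rw [← hae]
      exact E.add_mem (le_sup_left (a := T ⊓ A) (b := T ⊓ B) ⟨h9, ha⟩) he
    have key2 : (A ⊔ E) ⊓ T ≤ E := by
      rintro x ⟨hx1, hx2⟩
      obtain ⟨a, ha, e, he, hae⟩ := Submodule.mem_sup.mp hx1
      have h9 : a ∈ T := by
        have : a = x - e := by rw [← hae]; ring
        rw [this]; exact T.sub_mem hx2 (hET he)
      rw [← hae]
      exact E.add_mem (le_sup_left (a := T ⊓ A) (b := T ⊓ B) ⟨h9, ha⟩) he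
    have key3 : (B ⊔ E) ⊓ T ≤ E := by
      rintro x ⟨hx1, hx2⟩
      obtain ⟨a, ha, e, he, hae⟩ := Submodule.mem_sup.mp hx1
      have h9 : a ∈ T := by
        have : a = x - e := by rw [← hae]; ring
        rw [this]; exact T.sub_mem hx2 (hET he)
      rw [← hae]
      exact E.add_mem (le_sup_right (a := T ⊓ A) (b := T ⊓ B) ⟨h9, ha⟩) he
    intro i _ j _ hij
    fin_cases i <;> fin_cases j
    · exact absurd rfl hij
    · exact key1
    · exact key2
    · rw [inf_comm]; exact key1
    · exact absurd rfl hij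
    · exact key3
    · rw [inf_comm]; exact key2
    · rw [inf_comm]; exact key3
    · exact absurd rfl hij
  · intro i _
    fin_cases i
    · exact inf_mono le_sup_left hy
    · exact inf_mono le_sup_left (neg_mem_cl hy')
    · exact neg_mem_cl hz
  · have : (∑ i : Fin 3, (![y, -y', -(y - y')] : Fin 3 → ℂ) i) = 0 := by
      simp [Fin.sum_univ_three]; ring
    rw [this]
    exact alg_mem_cl _ isAlgebraic_zero

end Pool.Agent.Lib.MP_c82530_nt.AC
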