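import Pool.Agent.Lib.MP_c82530_nt.AC.Stm

set_option autoImplicit false

namespace Pool.Agent.Lib.MP_c82530_nt.AC

open Set Pool.Agent.Lib.MP_c82530_nt Pool.Agent.Lib.MP_c82530_nt.AA
  Pool.Agent.Lib.MP_c82530_nt.AB Module

theorem p_lgb : S_lgb := by
  intro B b hb hB
  have hm : b ∈ Nat.factoredNumbers b.primeFactors := by
    rw [Nat.mem_factoredNumbers]
    exact ⟨hb, fun p hp => Nat.mem_primeFactors_iff_mem_primeFactorsList.2 hp⟩
  have h0 : lg b = ∑ p ∈ b.primeFactors, ((b.factorization p : ℚ) • lg p) := log_eq_sum hm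
  rw [h0, AM, AlgebraicIndependent.matroid_closure_eq, SetLike.mem_coe]
  apply sum_mem
  intro p hp
  rw [Nat.mem_primeFactors] at hp
  have h1 : lg p ∈ Subalgebra.algebraicClosure (Algebra.adjoin ℚ (lg '' B)) ℂ := by
    rw [Subalgebra.mem_algebraicClosure]
    have h2 : lg p ∈ Algebra.adjoin ℚ (lg '' B) :=
      Algebra.subset_adjoin ⟨p, hB p hp.1 hp.2.1, rfl⟩
    exact isAlgebraic_algebraMap (⟨lg p, h2⟩ : Algebra.adjoin ℚ (lg '' B))
  have h3 : (b.factorization p : ℚ) • lg p =
      (algebraMap ℚ (Algebra.adjoin ℚ (lg '' B)) (b.factorization p : ℚ)) • lg p := by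
    rw [algebraMap_smul]
  rw [h3]
  exact Subalgebra.smul_mem _ h1 _

theorem p_dim : S_dim := by
  intro L t r hL htr x hx h
  have h1 : AlgebraicIndependent ℚ x :=
    h.restrictScalars (FaithfulSMul.algebraMap_injective ℚ (integralClosure ℚ ℂ))
  have h2 : AM.Indep (range x) := by
    rw [AM, AlgebraicIndependent.matroid_indep_iff]
    exact AlgebraicIndependent.coe_range h1
  have h3 : (r : ℕ∞) ≤ (range x).encard := by
    have h4 := h1.injective.encard_range
    simpa using h4
  have h4 : (range x).encard ≤ AM.eRk (AM.closure L) :=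
    h2.encard_le_eRk_of_subset (by
      rintro _ ⟨i, rfl⟩
      exact hx i)
  rw [Matroid.eRk_closure_eq] at h4
  have h5 : (r : ℕ∞) ≤ t := (h3.trans h4).trans hL
  have h6 : r ≤ t := by exact_mod_cast h5
  omega

end Pool.Agent.Lib.MP_c82530_nt.AC
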