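import Mathlib
import Pool.Agent.Lib.MP_c82530_nt.AC.Stm

set_option autoImplicit false

namespace Pool.Agent.Lib.MP_c82530_nt.AC

open Set Pool.Agent.Lib.MP_c82530_nt Pool.Agent.Lib.MP_c82530_nt.AA
  Pool.Agent.Lib.MP_c82530_nt.AB Module

theorem p_mon : S_mon := by
  intro L' L'' hL n x hx
  have hmem : ∀ z ∈ KL L'', z ∈ KL L' := by
    intro z hz
    rw [mem_KL] at hz ⊢
    exact AM.closure_subset_closure_of_subset_closure hL hz
  let f : KL L'' →+* KL L' :=
    { toFun := fun z => ⟨z, hmem z z.2⟩
      map_one' := rfl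
      map_mul' := fun _ _ => rfl
      map_zero' := rfl
      map_add' := fun _ _ => rfl }
  let alg : Algebra (KL L'') (KL L') := f.toAlgebra
  have t2 : IsScalarTower (KL L'') (KL L') ℂ :=
    IsScalarTower.of_algebraMap_eq fun x => rfl
  refine hx.restrictScalars (R := KL L'') (K := KL L') ?_
  intro a b hab
  exact Subtype.ext (congrArg (fun z : KL L' => (z : ℂ)) hab)

theorem p_cong : S_cong := by
  intro L' L'' h n x
  constructor
  · refine p_mon L' L'' ?_ n x
    rw [h]
    exact AM.subset_closure L'' (subset_univ _)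
  · refine p_mon L'' L' ?_ n x
    rw [← h]
    exact AM.subset_closure L' (subset_univ _)

end Pool.Agent.Lib.MP_c82530_nt.AC
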