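import Mathlib
import Pool.Agent.Lib.MP_c82530_nt.AC.Stm

set_option autoImplicit false

namespace Pool.Agent.Lib.MP_c82530_nt.AC

open Set Pool.Agent.Lib.MP_c82530_nt Pool.Agent.Lib.MP_c82530_nt.AA
  Pool.Agent.Lib.MP_c82530_nt.AB Module

private lemma snoc_alg_iff (s t : Set ℂ) (w : ℂ) :
    IsAlgebraic (Algebra.adjoin ℚ (s ∪ t)) w ↔
      IsAlgebraic (Algebra.adjoin (Algebra.adjoin ℚ s) t) w := by
  rw [Algebra.adjoin_union_eq_adjoin_adjoin]
  exact Iff.rfl

theorem p_snoc : S_snoc := by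
  intro s r x w
  have h1 : (Fin.snoc x w : Fin (r + 1) → ℂ) ∘ (finSuccEquivLast (n := r)).symm =
      fun o : Option (Fin r) => o.elim w x := by
    funext o
    rcases o with _ | j
    · simp
    · simp
  rw [indep_KL_iff (L := s) (J := s) rfl, indep_KL_iff (L := s) (J := s) rfl,
    ← algebraicIndependent_equiv' (finSuccEquivLast (n := r)).symm h1,
    AlgebraicIndependent.option_iff, mem_cl, snoc_alg_iff]
  rfl

end Pool.Agent.Lib.MP_c82530_nt.AC
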