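import Pool.Agent.Lib.MP_c82530_nt.AC.Stm
import Mathlib

set_option autoImplicit false

/-!
# MP_c82530_nt, piece SWAP: symmetry of relative algebraic independence
-/

namespace Pool.Agent.Lib.MP_c82530_nt.AC

open Set Pool.Agent.Lib.MP_c82530_nt Module

private lemma swap_cl {L J : Set ℂ} (hJ : AM.closure J = AM.closure L) {n : ℕ} (y : Fin n → ℂ) :
    AM.closure (range (Sum.elim y ((↑) : J → ℂ))) = AM.closure (L ∪ range y) := by
  rw [Sum.elim_range, Subtype.range_coe, ← AM.closure_union_closure_right_eq, hJ,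
    AM.closure_union_closure_right_eq, union_comm]

theorem p_swap : S_swap := by
  intro L n r y x hy hx
  obtain ⟨J, hJ⟩ := AM.exists_isBasis L (subset_univ L)
  have hJc : AM.closure J = AM.closure L := hJ.closure_eq_closure
  have hJind : AlgebraicIndependent ℚ ((↑) : J → ℂ) := hJ.indep
  rw [indep_KL_iff hJc] at hy
  have h1 : AlgebraicIndependent ℚ (Sum.elim y ((↑) : J → ℂ)) := by
    rw [AlgebraicIndependent.sumElim_iff, Subtype.range_coe]
    exact ⟨hJind, hy⟩
  rw [indep_KL_iff (swap_cl hJc y)] at hx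
  have h2 : AlgebraicIndependent ℚ (Sum.elim x (Sum.elim y ((↑) : J → ℂ))) := by
    rw [AlgebraicIndependent.sumElim_iff]
    exact ⟨h1, hx⟩
  let f : Fin n ⊕ (Fin r ⊕ J) → Fin r ⊕ (Fin n ⊕ J) :=
    Sum.elim (fun i => Sum.inr (Sum.inl i))
      (Sum.elim (fun i => Sum.inl i) (fun j => Sum.inr (Sum.inr j)))
  have hf : Function.Injective f := by
    rintro (a | a | a) (b | b | b) hab
    · exact congrArg Sum.inl (Sum.inl.inj (Sum.inr.inj hab))
    · exact absurd hab (by simp [f])
    · exact absurd hab (by simp [f])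
    · exact absurd hab (by simp [f])
    · exact congrArg (fun z => Sum.inr (Sum.inl z)) (Sum.inl.inj hab)
    · exact absurd hab (by simp [f])
    · exact absurd hab (by simp [f])
    · exact absurd hab (by simp [f])
    · exact congrArg (fun z => Sum.inr (Sum.inr z)) (Sum.inr.inj (Sum.inr.inj hab))
  have h3 := h2.comp f hf
  have e3 : (Sum.elim x (Sum.elim y ((↑) : J → ℂ))) ∘ f =
      Sum.elim y (Sum.elim x ((↑) : J → ℂ)) := by
    funext z
    rcases z with a | a | a <;> rfl
  rw [e3, AlgebraicIndependent.sumElim_iff] at h3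
  rw [indep_KL_iff (swap_cl hJc x)]
  exact h3.2

end Pool.Agent.Lib.MP_c82530_nt.AC
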