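import Pool.Agent.Lib.MP_c82530_nt.AC.Stm

set_option autoImplicit false

/-!
# Weights of sets of tuples
-/

namespace Pool.Agent.Lib.MP_c82530_nt.AC

open Set Pool.Agent.Lib.MP_c82530_nt Pool.Agent.Lib.MP_c82530_nt.AA
  Pool.Agent.Lib.MP_c82530_nt.AB Module

/-- the harmonic sum -/
theorem p_log : S_log := by
  intro N
  have h1 := log_add_one_le_harmonic N
  have h2 : ((harmonic N : ℚ) : ℝ) = ∑ b ∈ Finset.Icc 1 N, (b : ℝ)⁻¹ := by
    simp only [harmonic_eq_sum_Icc, Rat.cast_sum, Rat.cast_inv, Rat.cast_natCast]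
  rw [h2] at h1
  refine le_trans ?_ h1
  rcases Nat.eq_zero_or_pos N with h | h
  · rw [h]
    simp
  · refine Real.log_le_log (by exact_mod_cast h) ?_
    exact_mod_cast Nat.le_succ N

/-- weights -/
theorem p_wmo : S_wmo := by
  intro r N
  refine ⟨fun D D' h => ?_, ?_, fun D => ?_⟩
  · unfold Wt
    refine Finset.sum_le_sum fun b hb => ?_
    have hb0 : ∀ i, b i ≠ 0 := by
      intro i
      have h1 := Finset.mem_Icc.1 (Fintype.mem_piFinset.1 hb i)
      omega
    have hf : 0 ≤ ∏ i, ((b i : ℕ) : ℝ)⁻¹ := Finset.prod_nonneg fun i _ => by positivity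
    by_cases hD : b ∈ D
    · rw [indicator_of_mem hD, indicator_of_mem (h b hD hb0)]
    · rw [indicator_of_notMem hD]
      exact indicator_nonneg (fun b _ => Finset.prod_nonneg fun i _ => by positivity) b
  · have h1 : Wt (univ : Set (Fin r → ℕ)) N = (∑ b ∈ Finset.Icc 1 N, (b : ℝ)⁻¹) ^ r := by
      unfold Wt
      have h2 := Finset.prod_univ_sum (fun _ : Fin r => Finset.Icc 1 N)
        (fun _ (b : ℕ) => (b : ℝ)⁻¹)
      rw [Finset.prod_const, Finset.card_univ, Fintype.card_fin] at h2
      rw [h2]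
      refine Finset.sum_congr rfl fun b _ => ?_
      rw [indicator_univ]
    rw [h1]
    exact pow_le_pow_left₀ (Real.log_natCast_nonneg N) (p_log N) r
  · unfold Wt
    rw [← Finset.sum_add_distrib]
    refine Finset.sum_congr rfl fun b _ => ?_
    rw [indicator_univ]
    exact indicator_self_add_compl_apply D _ b

end Pool.Agent.Lib.MP_c82530_nt.AC
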